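import Mathlib

/-!
# The depth of the shadow can be equal to the word length

For every `n` we exhibit an infinite finitely generated group (namely `ℤ × ℤ/(4n+1)` with the
generators `(1,0)`, `(1,1)`, `(0,2)`) and an element `x` of length `n` such that the only point
on a geodesic from the identity to `x` from which a strictly increasing path to infinity starts
is the identity.  Hence `sd(x) = |x| = n`, which exceeds `⌈|x|/2⌉` as soon as `n ≥ 2`.
-/

namespace Pool.Agent.Results.MP_ea4c65_al.DeepShadow

variable {G : Type} [Group G]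

/-- `s` is a letter: `s` or its inverse belongs to `S`. -/
def Letter (S : Set G) (s : G) : Prop := s ∈ S ∨ s⁻¹ ∈ S

/-- Adjacency in the Cayley graph of `(G, S)`. -/
def Adj (S : Set G) (g h : G) : Prop := ∃ s, Letter S s ∧ h = g * s

/-- `g` is the product of a word of length `n` in the letters. -/
def HasWord (S : Set G) (n : ℕ) (g : G) : Prop :=
  ∃ l : List G, l.length = n ∧ (∀ s ∈ l, Letter S s) ∧ l.prod = g

/-- The word length `|g|` of `g` with respect to `S`. -/
noncomputable def len (S : Set G) (g : G) : ℕ := sInf {n | HasWord S n g}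

/-- There is a strictly increasing path to infinity from `x`. -/
def IncreasingRay (S : Set G) (x : G) : Prop :=
  ∃ π : ℕ → G, π 0 = x ∧ ∀ i, Adj S (π i) (π (i + 1)) ∧ len S (π i) < len S (π (i + 1))

/-- `y` lies on some geodesic from the identity to `x`. -/
def OnGeodesic (S : Set G) (x y : G) : Prop :=
  ∃ p : ℕ → G, p 0 = 1 ∧ p (len S x) = x ∧ (∀ i < len S x, Adj S (p i) (p (i + 1))) ∧
    ∃ i ≤ len S x, p i = y

/-- The numbers `k` such that some `y` of length `|x| - k` on a geodesic from the identity to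
`x` has a strictly increasing path to infinity. -/
def shadowSet (S : Set G) (x : G) : Set ℕ :=
  {k | k ≤ len S x ∧ ∃ y, len S y = len S x - k ∧ IncreasingRay S y ∧ OnGeodesic S x y}

/-- The depth of the shadow of `x`. -/
noncomputable def sd (S : Set G) (x : G) : ℕ := sInf (shadowSet S x)

lemma HasWord.one (S : Set G) : HasWord S 0 1 := ⟨[], rfl, by simp, rfl⟩

lemma HasWord.mul {S : Set G} {m n : ℕ} {g h : G} (hg : HasWord S m g) (hh : HasWord S n h) :
    HasWord S (m + n) (g * h) := by
  obtain ⟨l, rfl, hl, rfl⟩ := hg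
  obtain ⟨l', rfl, hl', rfl⟩ := hh
  refine ⟨l ++ l', by simp, ?_, by simp⟩
  intro s hs
  rcases List.mem_append.1 hs with h | h
  · exact hl s h
  · exact hl' s h

lemma HasWord.letter {S : Set G} {s : G} (hs : Letter S s) : HasWord S 1 s :=
  ⟨[s], rfl, by simpa using hs, by simp⟩

lemma HasWord.pow {S : Set G} {s : G} (hs : Letter S s) (k : ℕ) : HasWord S k (s ^ k) := by
  induction k with
  | zero => simpa using HasWord.one S
  | succ k ih => rw [pow_succ]; exact ih.mul (HasWord.letter hs)

lemma len_le {S : Set G} {n : ℕ} {g : G} (h : HasWord S n g) : len S g ≤ n := Nat.sInf_le h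

lemma hasWord_len {S : Set G} {n : ℕ} {g : G} (h : HasWord S n g) : HasWord S (len S g) g :=
  Nat.sInf_mem (s := {n | HasWord S n g}) ⟨n, h⟩

section example_group

variable (n : ℕ)

/-- The group `ℤ × ℤ/(4n+1)`, written multiplicatively. -/
abbrev A := Multiplicative (ℤ × ZMod (4 * n + 1))

/-- The element `(a, b)`. -/
def el (a : ℤ) (b : ZMod (4 * n + 1)) : A n := Multiplicative.ofAdd (a, b)

/-- The three generators. -/
def gens : Finset (A n) := {el n 1 0, el n 1 1, el n 0 2}

variable {n}

/-- First coordinate. -/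
def fst' (g : A n) : ℤ := (Multiplicative.toAdd g).1
/-- Second coordinate. -/
def snd' (g : A n) : ZMod (4 * n + 1) := (Multiplicative.toAdd g).2

lemma fst_mul (g h : A n) : fst' (g * h) = fst' g + fst' h := rfl
lemma snd_mul (g h : A n) : snd' (g * h) = snd' g + snd' h := rfl
lemma fst_one : fst' (1 : A n) = 0 := rfl
lemma snd_one : snd' (1 : A n) = 0 := rfl
lemma fst_inv (g : A n) : fst' g⁻¹ = - fst' g := rfl
lemma snd_inv (g : A n) : snd' g⁻¹ = - snd' g := rfl
lemma fst_el (a b) : fst' (el n a b) = a := rfl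
lemma snd_el (a b) : snd' (el n a b) = b := rfl
lemma ext' {g h : A n} (h1 : fst' g = fst' h) (h2 : snd' g = snd' h) : g = h :=
  Prod.ext h1 h2
lemma fst_pow (g : A n) (k : ℕ) : fst' (g ^ k) = k * fst' g := by
  show (Multiplicative.toAdd (g ^ k)).1 = _
  rw [toAdd_pow]; simp [fst']
lemma snd_pow (g : A n) (k : ℕ) : snd' (g ^ k) = k * snd' g := by
  show (Multiplicative.toAdd (g ^ k)).2 = _
  rw [toAdd_pow]; simp [snd']

/-- The cyclic absolute value on the second coordinate. -/
def cyc (f : ZMod (4 * n + 1)) : ℕ := f.valMinAbs.natAbs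

lemma cyc_add (a b : ZMod (4 * n + 1)) : cyc (a + b) ≤ cyc a + cyc b :=
  (ZMod.natAbs_valMinAbs_add_le a b).trans (Int.natAbs_add_le _ _)

lemma cyc_neg (a : ZMod (4 * n + 1)) : cyc (-a) = cyc a := ZMod.natAbs_valMinAbs_neg a

lemma cyc_zero : cyc (0 : ZMod (4 * n + 1)) = 0 := by simp [cyc]

lemma cyc_natCast {a : ℕ} (h : a ≤ 2 * n) : cyc (a : ZMod (4 * n + 1)) = a := by
  unfold cyc
  rw [ZMod.valMinAbs_natCast_of_le_half (by omega)]
  simp

lemma letter_cases {s : A n} (hs : Letter (gens n : Set (A n)) s) :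
    (|fst' s| = 1 ∧ (snd' s = 0 ∨ snd' s = 1 ∨ snd' s = -1)) ∨
      (fst' s = 0 ∧ (snd' s = 2 ∨ snd' s = -2)) := by
  have key : ∀ t : A n, t ∈ (gens n : Set (A n)) →
      (fst' t = 1 ∧ (snd' t = 0 ∨ snd' t = 1)) ∨ (fst' t = 0 ∧ snd' t = 2) := by
    intro t ht
    simp only [gens, Finset.coe_insert, Finset.coe_singleton, Set.mem_insert_iff,
      Set.mem_singleton_iff] at ht
    rcases ht with rfl | rfl | rfl
    · exact Or.inl ⟨rfl, Or.inl rfl⟩
    · exact Or.inl ⟨rfl, Or.inr rfl⟩
    · exact Or.inr ⟨rfl, rfl⟩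
  rcases hs with h | h
  · rcases key s h with ⟨h1, h2 | h2⟩ | ⟨h1, h2⟩
    · exact Or.inl ⟨by rw [h1]; rfl, Or.inl h2⟩
    · exact Or.inl ⟨by rw [h1]; rfl, Or.inr (Or.inl h2)⟩
    · exact Or.inr ⟨h1, Or.inl h2⟩
  · have e1 : fst' s = - fst' s⁻¹ := by rw [fst_inv, neg_neg]
    have e2 : snd' s = - snd' s⁻¹ := by rw [snd_inv, neg_neg]
    rcases key s⁻¹ h with ⟨h1, h2 | h2⟩ | ⟨h1, h2⟩
    · exact Or.inl ⟨by rw [e1, h1]; rfl, Or.inl (by rw [e2, h2, neg_zero])⟩
    · exact Or.inl ⟨by rw [e1, h1]; rfl, Or.inr (Or.inr (by rw [e2, h2]))⟩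
    · exact Or.inr ⟨by rw [e1, h1, neg_zero], Or.inr (by rw [e2, h2])⟩

lemma cyc_one (hn : 1 ≤ n) : cyc (1 : ZMod (4 * n + 1)) = 1 := by
  have := cyc_natCast (n := n) (a := 1) (by omega)
  simpa using this

lemma cyc_two (hn : 1 ≤ n) : cyc (2 : ZMod (4 * n + 1)) = 2 := by
  have := cyc_natCast (n := n) (a := 2) (by omega)
  simpa using this

lemma cyc_letter (hn : 1 ≤ n) {s : A n} (hs : Letter (gens n : Set (A n)) s) :
    cyc (snd' s) ≤ 2 := by
  rcases letter_cases hs with ⟨_, h | h | h⟩ | ⟨_, h | h⟩ <;> rw [h]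
  · rw [cyc_zero]; omega
  · rw [cyc_one hn]; omega
  · rw [cyc_neg, cyc_one hn]; omega
  · rw [cyc_two hn]
  · rw [cyc_neg, cyc_two hn]

lemma fst_letter_of_cyc (hn : 1 ≤ n) {s : A n} (hs : Letter (gens n : Set (A n)) s)
    (h2 : 2 ≤ cyc (snd' s)) : fst' s = 0 := by
  rcases letter_cases hs with ⟨_, h | h | h⟩ | ⟨h, _⟩
  · rw [h, cyc_zero] at h2; omega
  · rw [h, cyc_one hn] at h2; omega
  · rw [h, cyc_neg, cyc_one hn] at h2; omega
  · exact h

lemma abs_fst_letter {s : A n} (hs : Letter (gens n : Set (A n)) s) : |fst' s| ≤ 1 := by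
  rcases letter_cases hs with ⟨h, _⟩ | ⟨h, _⟩
  · exact h.le
  · rw [h]; simp

lemma cyc_le_of_hasWord (hn : 1 ≤ n) {k : ℕ} {g : A n} (h : HasWord (gens n : Set (A n)) k g) :
    cyc (snd' g) ≤ 2 * k := by
  obtain ⟨l, rfl, hl, rfl⟩ := h
  induction l with
  | nil => simp [snd_one, cyc_zero]
  | cons s l ih =>
    rw [List.prod_cons, snd_mul, List.length_cons]
    have h1 := cyc_letter hn (hl s (by simp))
    have h2 := ih (fun t ht => hl t (by simp [ht]))
    have h3 := cyc_add (snd' s) (snd' l.prod)
    omega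

lemma abs_fst_le_of_hasWord {k : ℕ} {g : A n} (h : HasWord (gens n : Set (A n)) k g) :
    |fst' g| ≤ k := by
  obtain ⟨l, rfl, hl, rfl⟩ := h
  induction l with
  | nil => simp [fst_one]
  | cons s l ih =>
    rw [List.prod_cons, fst_mul, List.length_cons]
    have h1 := abs_fst_letter (hl s (by simp))
    have h2 := ih (fun t ht => hl t (by simp [ht]))
    have h3 := abs_add_le (fst' s) (fst' l.prod)
    push_cast
    linarith

lemma letter_a : Letter (gens n : Set (A n)) (el n 1 0) := Or.inl (by simp [gens])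
lemma letter_b : Letter (gens n : Set (A n)) (el n 1 1) := Or.inl (by simp [gens])
lemma letter_c : Letter (gens n : Set (A n)) (el n 0 2) := Or.inl (by simp [gens])
lemma letter_inv {s : A n} (h : Letter (gens n : Set (A n)) s) :
    Letter (gens n : Set (A n)) s⁻¹ := by
  rcases h with h | h
  · exact Or.inr (by rwa [inv_inv])
  · exact Or.inl h

/-- Far from the origin, the second coordinate is absorbed. -/
lemma hasWord_far (g : A n) (h : (4 * n : ℤ) ≤ |fst' g|) :
    HasWord (gens n : Set (A n)) (fst' g).natAbs g := by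
  rcases le_total 0 (fst' g) with h0 | h0
  · rw [abs_of_nonneg h0] at h
    have hv : (snd' g).val < 4 * n + 1 := ZMod.val_lt _
    have hw := (HasWord.pow (letter_b (n := n)) (snd' g).val).mul
      (HasWord.pow (letter_a (n := n)) ((fst' g).natAbs - (snd' g).val))
    have e : (snd' g).val + ((fst' g).natAbs - (snd' g).val) = (fst' g).natAbs := by omega
    rw [e] at hw
    convert hw using 1
    refine ext' ?_ ?_
    · rw [fst_mul, fst_pow, fst_pow, fst_el, fst_el]
      omega
    · rw [snd_mul, snd_pow, snd_pow, snd_el, snd_el]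
      simp
  · rw [abs_of_nonpos h0] at h
    have hv : (-snd' g).val < 4 * n + 1 := ZMod.val_lt _
    have hw := (HasWord.pow (letter_inv (letter_b (n := n))) (-snd' g).val).mul
      (HasWord.pow (letter_inv (letter_a (n := n))) ((fst' g).natAbs - (-snd' g).val))
    have e : (-snd' g).val + ((fst' g).natAbs - (-snd' g).val) = (fst' g).natAbs := by omega
    rw [e] at hw
    convert hw using 1
    refine ext' ?_ ?_
    · rw [fst_mul, fst_pow, fst_pow, fst_inv, fst_inv, fst_el, fst_el]
      omega
    · rw [snd_mul, snd_pow, snd_pow, snd_inv, snd_inv, snd_el, snd_el]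
      simp

/-- A word for an arbitrary element. -/
lemma exists_word (g : A n) : HasWord (gens n : Set (A n)) ((fst' g).natAbs + 16 * n) g := by
  rcases le_total 0 (fst' g) with h0 | h0
  · have h1 := hasWord_far (n := n) (g * el n (4 * n) 0)
      (by rw [fst_mul, fst_el, abs_of_nonneg (by omega)]; omega)
    have h2 := h1.mul (HasWord.pow (letter_inv (letter_a (n := n))) (4 * n))
    have h3 := (h2.mul (HasWord.pow (letter_a (n := n)) (4 * n))).mul
      (HasWord.pow (letter_inv (letter_a (n := n))) (4 * n))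
    have e : (fst' (g * el n (4 * n) 0)).natAbs + 4 * n + 4 * n + 4 * n
        = (fst' g).natAbs + 16 * n := by
      rw [fst_mul, fst_el]; omega
    rw [e] at h3
    convert h3 using 1
    refine ext' ?_ ?_
    · simp only [fst_mul, fst_pow, fst_inv, fst_el]
      push_cast; ring
    · simp only [snd_mul, snd_pow, snd_inv, snd_el]
      ring
  · have h1 := hasWord_far (n := n) (g * el n (-(4 * n)) 0)
      (by rw [fst_mul, fst_el, abs_of_nonpos (by omega)]; omega)
    have h2 := h1.mul (HasWord.pow (letter_a (n := n)) (4 * n))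
    have h3 := (h2.mul (HasWord.pow (letter_a (n := n)) (4 * n))).mul
      (HasWord.pow (letter_inv (letter_a (n := n))) (4 * n))
    have e : (fst' (g * el n (-(4 * n)) 0)).natAbs + 4 * n + 4 * n + 4 * n
        = (fst' g).natAbs + 16 * n := by
      rw [fst_mul, fst_el]; omega
    rw [e] at h3
    convert h3 using 1
    refine ext' ?_ ?_
    · simp only [fst_mul, fst_pow, fst_inv, fst_el]
      push_cast; ring
    · simp only [snd_mul, snd_pow, snd_inv, snd_el]
      ring

lemma closure_gens : Subgroup.closure (gens n : Set (A n)) = ⊤ := by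
  rw [eq_top_iff]
  intro g _
  obtain ⟨l, _, hl, rfl⟩ := exists_word g
  apply Subgroup.list_prod_mem
  intro s hs
  rcases hl s hs with h | h
  · exact Subgroup.subset_closure h
  · have := Subgroup.inv_mem _ (Subgroup.subset_closure h)
    rwa [inv_inv] at this

/-- An element with a strictly increasing path to infinity has length at most `|first coord|`. -/
lemma len_le_of_ray {y : A n} (h : IncreasingRay (gens n : Set (A n)) y) :
    (len (gens n : Set (A n)) y : ℤ) ≤ |fst' y| := by
  obtain ⟨π, h0, hπ⟩ := h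
  have h1 : ∀ k : ℕ, len (gens n : Set (A n)) y + k ≤ len (gens n : Set (A n)) (π k) := by
    intro k
    induction k with
    | zero => rw [h0]; simp
    | succ k ih => have := (hπ k).2; omega
  have h2 : ∀ k : ℕ, |fst' (π k)| ≤ |fst' y| + k := by
    intro k
    induction k with
    | zero => rw [h0]; simp
    | succ k ih =>
      obtain ⟨s, hs, hs'⟩ := (hπ k).1
      rw [hs', fst_mul]
      have := abs_add_le (fst' (π k)) (fst' s)
      have := abs_fst_letter hs
      push_cast
      linarith
  by_contra hcon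
  push Not at hcon
  have h3 := h1 (20 * n + 1)
  have h4 := h2 (20 * n + 1)
  by_cases h5 : (4 * n : ℤ) ≤ |fst' (π (20 * n + 1))|
  · have h6 := len_le (hasWord_far _ h5)
    have h7 : ((fst' (π (20 * n + 1))).natAbs : ℤ) = |fst' (π (20 * n + 1))| :=
      Int.natCast_natAbs _
    have h8 : (len (gens n : Set (A n)) y : ℤ) + (20 * n + 1) ≤
        len (gens n : Set (A n)) (π (20 * n + 1)) := by exact_mod_cast h3
    have h9 : (len (gens n : Set (A n)) (π (20 * n + 1)) : ℤ) ≤
        ((fst' (π (20 * n + 1))).natAbs : ℤ) := by exact_mod_cast h6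
    push_cast at h4
    linarith
  · have h6 := len_le (exists_word (π (20 * n + 1)))
    have h7 : ((fst' (π (20 * n + 1))).natAbs : ℤ) = |fst' (π (20 * n + 1))| :=
      Int.natCast_natAbs _
    have h8 : (len (gens n : Set (A n)) y : ℤ) + (20 * n + 1) ≤
        len (gens n : Set (A n)) (π (20 * n + 1)) := by exact_mod_cast h3
    have h9 : (len (gens n : Set (A n)) (π (20 * n + 1)) : ℤ) ≤
        ((fst' (π (20 * n + 1))).natAbs : ℤ) + 16 * n := by exact_mod_cast h6
    omega

lemma snd_eq_len (hn : 1 ≤ n) : len (gens n : Set (A n)) (el n 0 (2 * n)) = n := by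
  have e : el n 0 (2 * n) = (el n 0 2) ^ n := by
    refine ext' ?_ ?_
    · rw [fst_pow, fst_el, fst_el, mul_zero]
    · rw [snd_pow, snd_el, snd_el]; ring
  have h1 : HasWord (gens n : Set (A n)) n (el n 0 (2 * n)) := by
    rw [e]; exact HasWord.pow letter_c n
  refine le_antisymm (len_le h1) ?_
  have h2 := cyc_le_of_hasWord hn (hasWord_len h1)
  have h3 : cyc (snd' (el n 0 (2 * n))) = 2 * n := by
    rw [snd_el]
    have := cyc_natCast (n := n) (a := 2 * n) le_rfl
    rw [← this]
    push_cast
    rfl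
  omega

/-- Every point on a geodesic from the identity to `(0, 2n)` has first coordinate `0`. -/
lemma fst_of_onGeodesic (hn : 1 ≤ n) {y : A n}
    (h : OnGeodesic (gens n : Set (A n)) (el n 0 (2 * n)) y) : fst' y = 0 := by
  obtain ⟨p, h0, h1, h2, i, hi, rfl⟩ := h
  rw [snd_eq_len hn] at h1 h2 hi
  have h3 : cyc (snd' (p n)) = 2 * n := by
    rw [h1, snd_el]
    have := cyc_natCast (n := n) (a := 2 * n) le_rfl
    rw [← this]
    push_cast
    rfl
  -- lower bound along the path
  have step : ∀ j < n, cyc (snd' (p (j + 1))) ≤ cyc (snd' (p j)) + 2 := by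
    intro j hj
    obtain ⟨s, hs, hs'⟩ := h2 j hj
    rw [hs', snd_mul]
    have := cyc_add (snd' (p j)) (snd' s)
    have := cyc_letter hn hs
    omega
  have up : ∀ j ≤ n, cyc (snd' (p j)) ≤ 2 * j := by
    intro j
    induction j with
    | zero => intro _; rw [h0, snd_one, cyc_zero]
    | succ j ih => intro hj; have := ih (by omega); have := step j (by omega); omega
  have low : ∀ j ≤ n, 2 * n ≤ cyc (snd' (p (n - j))) + 2 * j := by
    intro j
    induction j with
    | zero => intro _; rw [Nat.sub_zero, h3]; omega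
    | succ j ih =>
      intro hj
      have h4 := ih (by omega)
      have h5 := step (n - (j + 1)) (by omega)
      rw [show n - (j + 1) + 1 = n - j by omega] at h5
      omega
  have eq : ∀ j ≤ n, cyc (snd' (p j)) = 2 * j := by
    intro j hj
    have h4 := up j hj
    have h5 := low (n - j) (by omega)
    rw [show n - (n - j) = j by omega] at h5
    omega
  have fin : ∀ j ≤ n, fst' (p j) = 0 := by
    intro j
    induction j with
    | zero => intro _; rw [h0, fst_one]
    | succ j ih =>
      intro hj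
      obtain ⟨s, hs, hs'⟩ := h2 j (by omega)
      have h4 := eq j (by omega)
      have h5 := eq (j + 1) hj
      rw [hs', snd_mul] at h5
      have h6 := cyc_add (snd' (p j)) (snd' s)
      rw [hs', fst_mul, ih (by omega), fst_letter_of_cyc hn hs (by omega), add_zero]
  exact fin i hi

lemma len_axis (k : ℕ) : len (gens n : Set (A n)) (el n k 0) = k := by
  have e : el n k 0 = (el n 1 0) ^ k := by
    refine ext' ?_ ?_
    · rw [fst_pow, fst_el, fst_el, mul_one]
    · rw [snd_pow, snd_el, snd_el, mul_zero]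
  have h1 : HasWord (gens n : Set (A n)) k (el n k 0) := by
    rw [e]; exact HasWord.pow letter_a k
  refine le_antisymm (len_le h1) ?_
  have h2 := abs_fst_le_of_hasWord (hasWord_len h1)
  rw [fst_el, abs_of_nonneg (by omega)] at h2
  exact_mod_cast h2

lemma ray_one : IncreasingRay (gens n : Set (A n)) (1 : A n) := by
  refine ⟨fun k => el n k 0, rfl, fun i => ⟨⟨el n 1 0, letter_a, ?_⟩, ?_⟩⟩
  · refine ext' ?_ ?_
    · rw [fst_mul, fst_el, fst_el, fst_el]; push_cast; ring
    · rw [snd_mul, snd_el, snd_el, snd_el, add_zero]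
  · rw [len_axis, len_axis]; omega

lemma sd_eq (hn : 1 ≤ n) : shadowSet (gens n : Set (A n)) (el n 0 (2 * n)) = {n} := by
  ext k
  simp only [shadowSet, Set.mem_ofPred_eq, Set.mem_singleton_iff]
  rw [snd_eq_len hn]
  constructor
  · rintro ⟨hk, y, hy, hr, hg⟩
    have h1 := len_le_of_ray hr
    rw [fst_of_onGeodesic hn hg, hy] at h1
    simp only [abs_zero] at h1
    omega
  · rintro rfl
    refine ⟨le_rfl, 1, ?_, ray_one, ?_⟩
    · rw [Nat.sub_self]
      exact len_axis (n := k) 0
    · refine ⟨fun i => (el k 0 2) ^ i, pow_zero _, ?_, ?_, 0, Nat.zero_le _, pow_zero _⟩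
      · rw [snd_eq_len hn]
        refine ext' ?_ ?_
        · rw [fst_pow, fst_el, fst_el, mul_zero]
        · rw [snd_pow, snd_el, snd_el]; ring
      · intro i _
        exact ⟨el k 0 2, letter_c, pow_succ _ _⟩

end example_group

/-- For every `n ≥ 1` there are an infinite abelian group `G`, a finite generating set `S` and an
element `x` of length `n` such that a point `y` on a geodesic from the identity to `x` with a
strictly increasing path to infinity has length `|x| - n = 0`, and `sd(x) = n`.  In particular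
the inequality `sd(x) ≤ ⌈|x|/2⌉` fails for every `n ≥ 2`. -/
theorem result :
    (∀ n : ℕ, 1 ≤ n → ∃ (G : Type) (_ : CommGroup G) (S : Finset G) (x : G), Infinite G ∧
      Subgroup.closure (S : Set G) = ⊤ ∧ len (S : Set G) x = n ∧
      shadowSet (S : Set G) x = {n} ∧ sd (S : Set G) x = n) ∧
    ¬ ∀ (G : Type) (_ : Group G) (S : Finset G) (x : G), Infinite G →
      Subgroup.closure (S : Set G) = ⊤ → (sd (S : Set G) x : ℤ) ≤ ⌈(len (S : Set G) x : ℚ) / 2⌉ := by
  have main : ∀ n : ℕ, 1 ≤ n → ∃ (G : Type) (_ : CommGroup G) (S : Finset G) (x : G),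
      Infinite G ∧ Subgroup.closure (S : Set G) = ⊤ ∧ len (S : Set G) x = n ∧
      shadowSet (S : Set G) x = {n} ∧ sd (S : Set G) x = n := by
    intro n hn
    refine ⟨A n, inferInstance, gens n, el n 0 (2 * n), ?_, closure_gens, snd_eq_len hn,
      sd_eq hn, ?_⟩
    · exact Infinite.of_injective (fun k : ℤ => el n k 0) (fun a b h => congrArg fst' h)
    · rw [sd, sd_eq hn, csInf_singleton]
  refine ⟨main, fun h => ?_⟩
  obtain ⟨G, _, S, x, h1, h2, h3, _, h5⟩ := main 2 (by norm_num)
  have := h G _ S x h1 h2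
  rw [h5, h3] at this
  norm_num at this

end Pool.Agent.Results.MP_ea4c65_al.DeepShadow
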